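import Pool.Agent.H93.EN.Targets

/-!
# Row PW: pointwise bound of the sum over the modes
-/

namespace Pool.Agent.H51.EN

open MeasureTheory Set Metric Filter Topology Pool.Agent.H93.EN
open Pool.Agent.H93.BL hiding T_B1 T_B2 T_B3 T_SB T_SC

lemma norm_e (θ : ℝ) : ‖Complex.exp ((θ : ℂ) * Complex.I)‖ = 1 := Complex.norm_exp_ofReal_mul_I θ

lemma av_congr {g g' : ℂ → ℝ} (h : ∀ w, ‖w‖ = 1 → g w = g' w) : av g = av g' := by
  unfold av
  congr 1
  apply intervalIntegral.integral_congr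
  intro θ _
  exact h _ (norm_e θ)

lemma md_congr {g g' : ℂ → ℝ} (h : ∀ w, ‖w‖ = 1 → g w = g' w) (k : ℤ) : md g k = md g' k := by
  unfold md
  congr 1
  apply intervalIntegral.integral_congr
  intro θ _
  simp only [h _ (norm_e θ)]

lemma av_const_mul (c : ℝ) (g : ℂ → ℝ) : av (fun w => c * g w) = c * av g := by
  unfold av
  rw [intervalIntegral.integral_const_mul]
  ring

lemma av_nonneg {g : ℂ → ℝ} (h : ∀ w, 0 ≤ g w) : 0 ≤ av g := by
  unfold av
  apply mul_nonneg (by positivity)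
  exact intervalIntegral.integral_nonneg (by positivity) (fun θ _ => h _)

/-- Fubini -/
lemma av_int (Φ : ℂ → ℂ → ℝ) (hΦ : Bd Φ) (x : ℂ) (δ : ℝ) :
    av (fun w => ∫ y in ball x δ, Φ y w) = ∫ y in ball x δ, av (Φ y) := by
  unfold av
  rw [integral_const_mul]
  congr 1
  rw [intervalIntegral.integral_of_le (by positivity : (0 : ℝ) ≤ 2 * Real.pi)]
  have h2 : ∀ y, (∫ θ in (0 : ℝ)..(2 * Real.pi), Φ y (Complex.exp ((θ : ℂ) * Complex.I))) =
      ∫ θ in Ioc 0 (2 * Real.pi), Φ y (Complex.exp ((θ : ℂ) * Complex.I)) := fun y =>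
    intervalIntegral.integral_of_le (by positivity)
  simp only [h2]
  have : IsFiniteMeasure (volume.restrict (ball x δ)) := ⟨by
    rw [Measure.restrict_apply_univ]; exact measure_ball_lt_top⟩
  apply integral_integral_swap
  have hm : Measurable (Function.uncurry fun (θ : ℝ) (y : ℂ) =>
      Φ y (Complex.exp ((θ : ℂ) * Complex.I))) := by
    have he : Measurable fun p : ℝ × ℂ => (p.2, Complex.exp ((p.1 : ℂ) * Complex.I)) := by
      apply measurable_snd.prodMk
      exact (by fun_prop : Continuous fun p : ℝ × ℂ =>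
        Complex.exp ((p.1 : ℂ) * Complex.I)).measurable
    exact hΦ.1.comp he
  refine Integrable.of_bound hm.aestronglyMeasurable 1 (ae_of_all _ ?_)
  rintro ⟨θ, y⟩
  simp only [Function.uncurry]
  rw [Real.norm_of_nonneg (hΦ.2.1 _ _).1]
  exact (hΦ.2.1 _ _).2

theorem pw (h1 : Pool.Agent.H93.EN.T_U0) (h2 : Pool.Agent.H93.EN.T_B1)
    (h3 : Pool.Agent.H93.EN.T_B2) : T_PW := by
  obtain ⟨C, hC, hU⟩ := h1
  intro ι D
  obtain ⟨Cm, hCm, hmul⟩ := D.mul
  refine ⟨(C + C ^ 2) * Cm + C ^ 2, by positivity, ?_⟩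
  intro δ hδ x hx s
  obtain ⟨hxΩ, hxρ⟩ := hx
  obtain ⟨hmG, -, hmH, hb⟩ := hU (D.X x) (D.Xb x) δ hδ
  have hmG' : Measurable (Ml (D.X x) δ x) := hmG.of_uncurry_left
  have hmH' : Measurable (Hl (D.X x) δ x) := hmH.of_uncurry_left
  set b : ℂ → ℝ := fun w => ∫ y in ball x δ, D.X x y w with hbdef
  have hbm : Measurable b := by
    have : StronglyMeasurable (Function.uncurry (D.X x)) := (D.Xb x).1.stronglyMeasurable
    exact (this.integral_prod_left (μ := volume.restrict (ball x δ))).measurable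
  have hb0 : ∀ w, 0 ≤ b w := fun w => integral_nonneg fun y => ((D.Xb x).2.1 y w).1
  have hvol : volume (ball x δ) < ⊤ := measure_ball_lt_top
  set V : ℝ := (volume (ball x δ)).toReal with hV
  have hb1 : ∀ w, b w ≤ V := by
    intro w
    have h := norm_setIntegral_le_of_norm_le_const (μ := volume) (s := ball x δ)
      (f := fun y => D.X x y w) (C := 1) hvol (by
        intro y _
        rw [Real.norm_of_nonneg ((D.Xb x).2.1 y w).1]
        exact ((D.Xb x).2.1 y w).2)
    rw [one_mul, Real.norm_of_nonneg (hb0 w)] at h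
    exact h
  have hV0 : 0 ≤ V := ENNReal.toReal_nonneg
  -- the function on the circle
  set G : ℂ → ℝ := Ml (D.X x) δ x with hG
  set H : ℂ → ℝ := fun w => if ‖w‖ = 1 then Hl (D.X x) δ x w else 0 with hH
  have hHm : Measurable H := by
    apply Measurable.ite _ hmH' measurable_const
    exact (isClosed_eq continuous_norm continuous_const).measurableSet
  have hHb : ∀ w, |H w| ≤ C / δ := by
    intro w
    simp only [hH]
    split_ifs with hw
    · obtain ⟨-, -, h4, h5, -, -⟩ := hb x w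
      exact (h5 hw).trans h4
    · rw [abs_zero]; positivity
  have hHb' : ∀ w, |H w| ≤ C / δ ^ 3 * b w := by
    intro w
    simp only [hH]
    split_ifs with hw
    · obtain ⟨-, -, -, h5, -, h7⟩ := hb x w
      exact (h5 hw).trans h7
    · rw [abs_zero]; exact mul_nonneg (by positivity) (hb0 w)
  have hG01 : ∀ w, 0 ≤ G w ∧ G w ≤ 1 := fun w => ⟨(hb x w).1, (hb x w).2.1⟩
  have hGb : ∀ w, G w ≤ C / δ ^ 2 * b w := fun w => (hb x w).2.2.2.2.1
  set A : ℝ := av b with hA
  have hA0 : 0 ≤ A := av_nonneg hb0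
  -- Bessel
  have hu : ∀ t : Finset ℤ, ∑ k ∈ t, ‖D.u δ k x‖ ^ 2 ≤ C / δ ^ 2 * A := by
    intro t
    have e1 := h2 G hmG' ⟨1, fun w => by rw [abs_of_nonneg (hG01 w).1]; exact (hG01 w).2⟩ t
    have e2 : av (fun w => G w ^ 2) ≤ av (fun w => C / δ ^ 2 * b w) := by
      refine (h3 (fun w => G w ^ 2) (fun w => C / δ ^ 2 * b w) (1 + C / δ ^ 2 * V)
        (hmG'.pow_const 2) (hbm.const_mul _) ?_ ?_).2.1 ?_
      · intro w _
        rw [abs_of_nonneg (by positivity)]
        have : G w ^ 2 ≤ 1 := by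
          obtain ⟨q1, q2⟩ := hG01 w
          nlinarith
        have : 0 ≤ C / δ ^ 2 * V := by positivity
        linarith
      · intro w _
        rw [abs_of_nonneg (mul_nonneg (by positivity) (hb0 w))]
        have : C / δ ^ 2 * b w ≤ C / δ ^ 2 * V := mul_le_mul_of_nonneg_left (hb1 w) (by positivity)
        linarith
      · intro w _
        obtain ⟨q1, q2⟩ := hG01 w
        have := hGb w
        nlinarith
    rw [av_const_mul] at e2
    exact e1.trans e2
  have hh : ∀ t : Finset ℤ, ∑ k ∈ t, ‖D.h δ k x‖ ^ 2 ≤ av (fun w => H w ^ 2) := by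
    intro t
    have e1 := h2 H hHm ⟨C / δ, hHb⟩ t
    have e2 : ∀ k, md H k = D.h δ k x := by
      intro k
      show md H k = md (Hl (D.X x) δ x) k
      apply md_congr
      intro w hw
      simp only [hH, hw, if_true]
    simpa only [e2] using e1
  have hsq : ∀ w, H w ^ 2 ≤ (C / δ) ^ 2 := fun w => by
    rw [← sq_abs]
    exact pow_le_pow_left₀ (abs_nonneg _) (hHb w) 2
  have hH1 : av (fun w => H w ^ 2) ≤ C / δ * (C / δ ^ 3) * A := by
    rw [hA, ← av_const_mul]
    refine (h3 (fun w => H w ^ 2) (fun w => C / δ * (C / δ ^ 3) * b w)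
      ((C / δ) ^ 2 + C / δ * (C / δ ^ 3) * V)
      (hHm.pow_const 2) (hbm.const_mul _) ?_ ?_).2.1 ?_
    · intro w _
      rw [abs_of_nonneg (by positivity)]
      have : 0 ≤ C / δ * (C / δ ^ 3) * V := by positivity
      linarith [hsq w]
    · intro w _
      rw [abs_of_nonneg (mul_nonneg (by positivity) (hb0 w))]
      have : C / δ * (C / δ ^ 3) * b w ≤ C / δ * (C / δ ^ 3) * V :=
        mul_le_mul_of_nonneg_left (hb1 w) (by positivity)
      have : 0 ≤ (C / δ) ^ 2 := by positivity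
      linarith
    · intro w _
      calc H w ^ 2 = |H w| * |H w| := by rw [← sq_abs]; ring
        _ ≤ (C / δ) * (C / δ ^ 3 * b w) :=
          mul_le_mul (hHb w) (hHb' w) (abs_nonneg _) (by positivity)
        _ = C / δ * (C / δ ^ 3) * b w := by ring
  have hH2 : av (fun w => H w ^ 2) ≤ (C / δ) ^ 2 := by
    have e := (h3 (fun w => H w ^ 2) (fun w => H w ^ 2) ((C / δ) ^ 2) (hHm.pow_const 2)
      (hHm.pow_const 2) (fun w _ => by rw [abs_of_nonneg (by positivity)]; exact hsq w)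
      (fun w _ => by rw [abs_of_nonneg (by positivity)]; exact hsq w)).2.2.1
    have : (fun w => |H w ^ 2|) = fun w => H w ^ 2 := by
      funext w; exact abs_of_nonneg (by positivity)
    rwa [this] at e
  set I : ℝ := ∫ y in ball x δ ∩ D.P.Ω, D.f0 y with hI
  have hI0 : 0 ≤ I := integral_nonneg fun y => av_nonneg fun w => (D.Fb.2.1 y w).1
  have hAI : A ≤ Cm * I := by
    rw [hA, hbdef, av_int _ (D.Xb x)]
    refine hmul x hxΩ δ hδ ?_
    have : δ ≤ D.κ * D.rho x := by linarith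
    exact this
  refine ⟨?_, ?_⟩
  · -- arithmetic geometric mean
    have key : ∀ a c : ℝ, 0 ≤ a → 0 ≤ c → a * c ≤ 1 / 2 * (a ^ 2 / δ + c ^ 2 * δ) := by
      intro a c _ _
      have h : 0 ≤ (a - c * δ) ^ 2 / δ := div_nonneg (sq_nonneg _) hδ.le
      have h' : (a - c * δ) ^ 2 / δ = a ^ 2 / δ - 2 * (a * c) + c ^ 2 * δ := by
        field_simp
        ring
      linarith
    have hp : ∑ k ∈ s, ‖D.h δ (k + 1) x‖ ^ 2 ≤ C / δ * (C / δ ^ 3) * A := by
      have e := hh (s.map (addRightEmbedding 1))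
      rw [Finset.sum_map] at e
      exact e.trans hH1
    have hq : ∑ k ∈ s, ‖D.h δ (k - 1) x‖ ^ 2 ≤ C / δ * (C / δ ^ 3) * A := by
      have e := hh (s.map (addRightEmbedding (-1)))
      rw [Finset.sum_map] at e
      exact e.trans hH1
    calc ∑ k ∈ s, ‖D.u δ k x‖ * (‖D.h δ (k + 1) x‖ + ‖D.h δ (k - 1) x‖)
        ≤ ∑ k ∈ s, (‖D.u δ k x‖ ^ 2 / δ + 1 / 2 * δ * ‖D.h δ (k + 1) x‖ ^ 2 +
            1 / 2 * δ * ‖D.h δ (k - 1) x‖ ^ 2) := by
          apply Finset.sum_le_sum
          intro k _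
          have k1 := key _ _ (norm_nonneg (D.u δ k x)) (norm_nonneg (D.h δ (k + 1) x))
          have k2 := key _ _ (norm_nonneg (D.u δ k x)) (norm_nonneg (D.h δ (k - 1) x))
          nlinarith
      _ = (∑ k ∈ s, ‖D.u δ k x‖ ^ 2) / δ + 1 / 2 * δ * (∑ k ∈ s, ‖D.h δ (k + 1) x‖ ^ 2) +
            1 / 2 * δ * ∑ k ∈ s, ‖D.h δ (k - 1) x‖ ^ 2 := by
          rw [Finset.sum_add_distrib, Finset.sum_add_distrib, Finset.mul_sum, Finset.mul_sum,
            Finset.sum_div]
      _ ≤ (C / δ ^ 2 * A) / δ + 1 / 2 * δ * (C / δ * (C / δ ^ 3) * A) +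
            1 / 2 * δ * (C / δ * (C / δ ^ 3) * A) := by
          gcongr
          exact hu s
      _ = (C + C ^ 2) / δ ^ 3 * A := by
          field_simp
          ring
      _ ≤ (C + C ^ 2) / δ ^ 3 * (Cm * I) := mul_le_mul_of_nonneg_left hAI (by positivity)
      _ = ((C + C ^ 2) * Cm) / δ ^ 3 * I := by ring
      _ ≤ ((C + C ^ 2) * Cm + C ^ 2) / δ ^ 3 * I := by
          apply mul_le_mul_of_nonneg_right _ hI0
          apply div_le_div_of_nonneg_right _ (by positivity)
          have : 0 ≤ C ^ 2 := by positivity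
          linarith
  · calc ∑ k ∈ s, ‖D.h δ k x‖ ^ 2 ≤ (C / δ) ^ 2 := (hh s).trans hH2
      _ = C ^ 2 / δ ^ 2 := by ring
      _ ≤ ((C + C ^ 2) * Cm + C ^ 2) / δ ^ 2 := by
          apply div_le_div_of_nonneg_right _ (by positivity)
          have : 0 ≤ (C + C ^ 2) * Cm := by positivity
          linarith

end Pool.Agent.H51.EN
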